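import Mathlib

set_option autoImplicit false

/-!
# Local data of a Dedekind domain at a nonzero prime, and integrality by valuation rings
-/

namespace Pool.Agent.H61.IntVal

open Polynomial

/-- An integrally closed domain with finite residue rings is a Dedekind domain. -/
theorem isDedekindDomain_of_finite {D : Type*} [CommRing D] [IsDomain D] [IsIntegrallyClosed D]
    (hD : ∀ d : D, d ≠ 0 → Finite (D ⧸ Ideal.span {d})) : IsDedekindDomain D := by
  have hnoeth : IsNoetherianRing D := by
    rw [isNoetherianRing_iff_ideal_fg]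
    intro I
    by_cases hI : I = ⊥
    · rw [hI]; exact Submodule.fg_bot
    obtain ⟨d, hdI, hd⟩ := Submodule.exists_mem_ne_zero_of_ne_bot hI
    have hfin := hD d hd
    have h1 : (I.map (Ideal.Quotient.mk (Ideal.span {d}))).FG := by
      have hset : (I.map (Ideal.Quotient.mk (Ideal.span {d})) : Set (D ⧸ Ideal.span {d})).Finite :=
        Set.toFinite _
      refine ⟨hset.toFinset, ?_⟩
      rw [Set.Finite.coe_toFinset]
      exact Submodule.span_eq _
    obtain ⟨s, hs⟩ := h1
    classical
    choose f hf using fun x : D ⧸ Ideal.span {d} => Ideal.Quotient.mk_surjective x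
    by_cases hall : ∀ x ∈ s, f x ∈ I
    · refine ⟨insert d (s.image f), le_antisymm ?_ ?_⟩
      · rw [Submodule.span_le]
        intro x hx
        simp only [Finset.coe_insert, Finset.coe_image, Set.mem_insert_iff, Set.mem_image,
          Finset.mem_coe] at hx
        rcases hx with rfl | ⟨y, hy, rfl⟩
        · exact hdI
        · exact hall y hy
      · intro x hx
        set J : Ideal D := Ideal.span (↑(insert d (s.image f)) : Set D) with hJ
        change x ∈ J
        have hdJ : d ∈ J := Ideal.subset_span (by simp)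
        have h2 : Ideal.Quotient.mk (Ideal.span {d}) x ∈ J.map (Ideal.Quotient.mk (Ideal.span {d})) := by
          have h3 : Ideal.Quotient.mk (Ideal.span {d}) x ∈
              I.map (Ideal.Quotient.mk (Ideal.span {d})) := Ideal.mem_map_of_mem _ hx
          rw [← hs] at h3
          refine Submodule.span_le.mpr ?_ h3
          intro y hy
          rw [← hf y]
          refine Ideal.mem_map_of_mem _ (Ideal.subset_span ?_)
          simp only [Finset.coe_insert, Finset.coe_image, Set.mem_insert_iff, Set.mem_image,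
            Finset.mem_coe]
          exact Or.inr ⟨y, hy, rfl⟩
        rw [Ideal.mem_map_iff_of_surjective _ Ideal.Quotient.mk_surjective] at h2
        obtain ⟨y, hy, hxy⟩ := h2
        rw [Ideal.Quotient.eq, Ideal.mem_span_singleton] at hxy
        obtain ⟨c, hc⟩ := hxy
        have : x = y - d * c := by rw [← hc]; ring
        rw [this]
        exact J.sub_mem hy (J.mul_mem_right _ hdJ)
    · exfalso
      push Not at hall
      obtain ⟨x, hx, hxI⟩ := hall
      apply hxI
      have h3 : x ∈ I.map (Ideal.Quotient.mk (Ideal.span {d})) := by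
        rw [← hs]; exact Submodule.subset_span hx
      rw [Ideal.mem_map_iff_of_surjective _ Ideal.Quotient.mk_surjective] at h3
      obtain ⟨y, hy, hxy⟩ := h3
      rw [← hf x, Ideal.Quotient.eq, Ideal.mem_span_singleton] at hxy
      obtain ⟨c, hc⟩ := hxy
      have : f x = y - d * c := by rw [← hc]; ring
      rw [this]
      exact I.sub_mem hy (I.mul_mem_right _ hdI)
  have hdim : Ring.DimensionLEOne D := by
    refine ⟨fun {P} hP hprime => ?_⟩
    obtain ⟨d, hdP, hd⟩ := Submodule.exists_mem_ne_zero_of_ne_bot hP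
    have hfin := hD d hd
    have hle : Ideal.span {d} ≤ P := by
      rw [Ideal.span_le]; simpa using hdP
    have h2 : Finite (D ⧸ P) :=
      Finite.of_surjective (Ideal.Quotient.factor hle) (Ideal.Quotient.factor_surjective hle)
    have h3 : IsDomain (D ⧸ P) := Ideal.Quotient.isDomain P
    exact Ideal.Quotient.maximal_of_isField P (Finite.isField_of_domain (D ⧸ P))
  exact { (inferInstance : IsDomain D), hnoeth, hdim,
    (inferInstance : IsIntegrallyClosed D) with }

/-- A local uniformizer `π` and a local denominator `σ` at a nonzero prime. -/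
theorem exists_data {D : Type*} [CommRing D] [IsDedekindDomain D] (P : Ideal D) [hPp : P.IsPrime]
    (hP : P ≠ ⊥) : ∃ π σ : D, π ∈ P ∧ π ≠ 0 ∧ σ ∉ P ∧ (∀ t ∈ P, ∃ d, σ * t = π * d) ∧
      ∀ a : D, a ≠ 0 → ∃ (j : ℕ) (s t : D), s ∉ P ∧ t ∉ P ∧ s * a = t * π ^ j := by
  have hmax : P.IsMaximal := hPp.isMaximal hP
  have hlt : P ^ 2 < P := by
    have := Ideal.pow_succ_lt_pow hP 1
    simpa using this
  obtain ⟨π, hπ, hπ2⟩ := SetLike.exists_of_lt hlt
  have hπ0 : π ≠ 0 := by rintro rfl; exact hπ2 (zero_mem _)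
  have hdvd : P ∣ Ideal.span {π} := by
    rw [Ideal.dvd_span_singleton]; exact hπ
  obtain ⟨J, hJ⟩ := hdvd
  have hJP : ¬ J ≤ P := by
    intro h
    apply hπ2
    have h1 : π ∈ P * J := by rw [← hJ]; exact Ideal.mem_span_singleton_self π
    rw [pow_two]
    exact Ideal.mul_mono_right h h1
  obtain ⟨σ, hσJ, hσP⟩ := SetLike.not_le_iff_exists.mp hJP
  have hσπ : ∀ t ∈ P, ∃ d, σ * t = π * d := by
    intro t ht
    have h1 : t * σ ∈ P * J := Ideal.mul_mem_mul ht hσJ
    rw [← hJ, Ideal.mem_span_singleton] at h1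
    obtain ⟨d, hd⟩ := h1
    exact ⟨d, by rw [mul_comm]; exact hd⟩
  refine ⟨π, σ, hπ, hπ0, hσP, hσπ, ?_⟩
  intro a ha
  have hpow : ∀ j : ℕ, ∀ x ∈ P ^ j, ∃ d, σ ^ j * x = π ^ j * d := by
    intro j
    have h1 : Ideal.span {σ ^ j} * P ^ j ≤ Ideal.span {π ^ j} := by
      rw [← Ideal.span_singleton_pow, ← Ideal.span_singleton_pow, ← mul_pow]
      apply Ideal.pow_right_mono
      rw [Ideal.span_singleton_mul_le_iff]
      intro t ht
      rw [Ideal.mem_span_singleton]
      obtain ⟨d, hd⟩ := hσπ t ht
      exact ⟨d, hd⟩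
    intro x hx
    have h2 : σ ^ j * x ∈ Ideal.span {σ ^ j} * P ^ j :=
      Ideal.mul_mem_mul (Ideal.mem_span_singleton_self _) hx
    obtain ⟨d, hd⟩ := Ideal.mem_span_singleton.mp (h1 h2)
    exact ⟨d, hd⟩
  have hex : ∃ j : ℕ, a ∉ P ^ j := by
    by_contra h
    push Not at h
    have h1 : a ∈ ⨅ i : ℕ, P ^ i := by
      rw [Ideal.mem_iInf]; exact h
    rw [Ideal.iInf_pow_eq_bot_of_isDomain P hPp.ne_top] at h1
    exact ha h1
  classical
  obtain ⟨j, hj1, hj2⟩ : ∃ j : ℕ, a ∈ P ^ j ∧ a ∉ P ^ (j + 1) := by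
    have h0 : Nat.find hex ≠ 0 := by
      intro h
      have := Nat.find_spec hex
      rw [h] at this
      simp at this
    obtain ⟨j, hj⟩ := Nat.exists_eq_succ_of_ne_zero h0
    refine ⟨j, ?_, ?_⟩
    · by_contra h
      have := Nat.find_min' hex h
      omega
    · have := Nat.find_spec hex
      rwa [hj] at this
  obtain ⟨t, ht⟩ := hpow j a hj1
  refine ⟨j, σ ^ j, t, ?_, ?_, by rw [ht, mul_comm]⟩
  · intro h
    exact hσP (hPp.mem_of_pow_mem j h)
  · intro htP
    obtain ⟨d, hd⟩ := hσπ t htP
    have h1 : σ ^ (j + 1) * a ∈ P ^ (j + 1) := by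
      have : σ ^ (j + 1) * a = π ^ (j + 1) * d := by
        calc σ ^ (j + 1) * a = σ * (σ ^ j * a) := by ring
          _ = π ^ j * (σ * t) := by rw [ht]; ring
          _ = π ^ (j + 1) * d := by rw [hd]; ring
      rw [this]
      exact Ideal.mul_mem_right _ _ (Ideal.pow_mem_pow hπ _)
    have h2 : σ ^ (j + 1) ∉ P := fun h => hσP (hPp.mem_of_pow_mem _ h)
    obtain ⟨u, v, hv, huv⟩ := hmax.exists_inv h2
    apply hj2
    have h3 : a = u * (σ ^ (j + 1) * a) + v * a := by
      calc a = (u * σ ^ (j + 1) + v) * a := by rw [huv, one_mul]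
        _ = _ := by ring
    rw [h3]
    refine Ideal.add_mem _ (Ideal.mul_mem_left _ _ h1) ?_
    rw [pow_succ, mul_comm (P ^ j)]
    exact Ideal.mul_mem_mul hv hj1

/-- An element of a field lying in every valuation ring containing (the image of) `D` is integral
over `D`. -/
theorem isIntegral_of_forall_valuationSubring {D L : Type*} [CommRing D] [Field L] [Algebra D L]
    (x : L) (h : ∀ V : ValuationSubring L, (∀ d : D, algebraMap D L d ∈ V) → x ∈ V) :
    IsIntegral D x := by
  have h1 : x ∈ (⨅ V : {V : ValuationSubring L // Set.range (algebraMap D L) ⊆ V.toSubring},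
      V.1.toSubring) := by
    rw [Subring.mem_iInf]
    rintro ⟨V, hV⟩
    exact h V fun d => hV ⟨d, rfl⟩
  rw [iInf_valuationSubring_superset] at h1
  have h2 : IsIntegral (Subring.closure (Set.range (algebraMap D L))) x := h1
  obtain ⟨p, hp, hpx⟩ := h2
  have hmem : ∀ c : Subring.closure (Set.range (algebraMap D L)), ∃ d : D, algebraMap D L d = c := by
    intro c
    have hc := c.2
    have : Subring.closure (Set.range (algebraMap D L)) = (algebraMap D L).range := by
      rw [← RingHom.coe_range, Subring.closure_eq]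
    have h3 : (c : L) ∈ (algebraMap D L).range := by rw [← this]; exact c.2
    exact h3
  set i : Subring.closure (Set.range (algebraMap D L)) →+* L := Subring.subtype _ with hi
  have hlift : p.map i ∈ lifts (algebraMap D L) := by
    rw [lifts_iff_coeff_lifts]
    intro n
    rw [coeff_map]
    obtain ⟨d, hd⟩ := hmem (p.coeff n)
    exact ⟨d, hd⟩
  obtain ⟨q, hq1, -, hq3⟩ := lifts_and_natDegree_eq_and_monic hlift (hp.map i)
  refine ⟨q, hq3, ?_⟩
  rw [← eval_map, hq1, eval_map]
  exact hpx

end Pool.Agent.H61.IntVal
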