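import Pool.Agent.H61.IntVal.Global
import Pool.Agent.H13.IntVal.Defs

set_option autoImplicit false

/-!
# `Int_K(A)` integrally closed forces `A = A'` over domains with finite residue rings
-/

namespace Pool.Agent.H61.IntVal

open Polynomial Pool.Agent.H13.IntVal

open scoped TensorProduct

/-- An element of `K[X]`, integral over the subring `R` by a special equation, with a nonzero
multiple in `R`, lies in `R` when `R` is integrally closed. -/
theorem mem_of_isIntegrallyClosed {S : Type*} [CommRing S] [IsDomain S] (R : Subring S)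
    [IsIntegrallyClosed R] {f d : S} {Q : ℕ} (hQ : 1 ≤ Q) (hd0 : d ≠ 0) (hd : d ∈ R)
    (hdf : d * f ∈ R) (hf : f ^ (2 * Q) - f ^ Q ∈ R) : f ∈ R := by
  set F := FractionRing R with hF
  set d' : R := ⟨d, hd⟩ with hd'
  set e' : R := ⟨d * f, hdf⟩ with he'
  set g' : R := ⟨f ^ (2 * Q) - f ^ Q, hf⟩ with hg'
  have hd'0 : d' ≠ 0 := by
    intro h0
    exact hd0 (congrArg Subtype.val h0)
  have hdF : algebraMap R F d' ≠ 0 := by
    intro h0
    exact hd'0 (IsFractionRing.injective R F (by rw [h0, map_zero]))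
  set φ : F := algebraMap R F e' / algebraMap R F d' with hφ
  have hrel : e' ^ (2 * Q) - d' ^ Q * e' ^ Q = d' ^ (2 * Q) * g' := by
    apply Subtype.ext
    push_cast
    simp only [hd', he', hg']
    rw [mul_pow, mul_pow, two_mul Q, pow_add, pow_add]
    ring
  have hφrel : φ ^ (2 * Q) - φ ^ Q = algebraMap R F g' := by
    have h1 : algebraMap R F d' ^ (2 * Q) * (φ ^ (2 * Q) - φ ^ Q) =
        algebraMap R F d' ^ (2 * Q) * algebraMap R F g' := by
      have h2 := congrArg (algebraMap R F) hrel
      simp only [map_sub, map_mul, map_pow] at h2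
      rw [← h2, mul_sub, ← mul_pow]
      have h3 : algebraMap R F d' * φ = algebraMap R F e' := by
        rw [hφ, mul_div_cancel₀ _ hdF]
      rw [h3]
      congr 1
      rw [two_mul, pow_add, mul_assoc, ← mul_pow, h3]
    exact mul_left_cancel₀ (pow_ne_zero _ hdF) h1
  have hint : IsIntegral R φ := by
    refine ⟨X ^ (2 * Q) - (X ^ Q + C g'), ?_, ?_⟩
    · refine monic_X_pow_sub ?_
      refine lt_of_le_of_lt (degree_add_le _ _) (max_lt ?_ ?_)
      · refine lt_of_le_of_lt (degree_X_pow_le _) ?_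
        exact_mod_cast (by omega : Q < 2 * Q)
      · refine lt_of_le_of_lt degree_C_le ?_
        exact_mod_cast (by omega : 0 < 2 * Q)
    · simp only [eval₂_sub, eval₂_add, eval₂_pow, eval₂_X, eval₂_C]
      rw [← hφrel]
      ring
  obtain ⟨y, hy⟩ := IsIntegrallyClosed.isIntegral_iff.mp hint
  have h1 : d' * y = e' := by
    apply IsFractionRing.injective R F
    rw [map_mul, hy, hφ, mul_div_cancel₀ _ hdF]
  have h2 : d * (y : S) = d * f := congrArg Subtype.val h1
  have h3 : (y : S) = f := mul_left_cancel₀ hd0 h2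
  rw [← h3]
  exact y.2

section Main

set_option linter.unusedSectionVars false

variable {D : Type*} [CommRing D] [IsDomain D] [IsIntegrallyClosed D]
variable {A : Type*} [Ring A] [Algebra D A] [Module.Finite D A]

theorem isIntegral_tmul (a : A) : IsIntegral D ((1 : FractionRing D) ⊗ₜ[D] a : BB D A) := by
  have h : IsIntegral D a := Algebra.IsIntegral.isIntegral a
  exact h.map (Algebra.TensorProduct.includeRight : A →ₐ[D] BB D A)

theorem aeval_tmul_mem (a : A) (p : D[X]) :
    aeval ((1 : FractionRing D) ⊗ₜ[D] a : BB D A) p ∈ imageA D A := by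
  have h : aeval ((Algebra.TensorProduct.includeRight : A →ₐ[D] BB D A) a) p =
      (Algebra.TensorProduct.includeRight : A →ₐ[D] BB D A) (aeval a p) :=
    aeval_algHom_apply _ _ _
  exact ⟨aeval a p, h.symm⟩

/-- The key polynomial lies in `Int_K(A)`. -/
theorem keyPoly_mem (hD : ∀ d : D, d ≠ 0 → Finite (D ⧸ Ideal.span {d}))
    [IsIntegrallyClosed (IntK D A)] {P : Ideal D} {π σ : D} (h : LocData P π σ)
    {N Q : ℕ} (hN : ∀ m, 1 ≤ m → m ≤ Module.finrank (FractionRing D) (BB D A) → m ∣ N)
    (hN1 : 1 ≤ N) (hQ : Pig (π ^ (N + 1)) (Module.finrank (FractionRing D) (BB D A)) Q) :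
    keyPoly (FractionRing D)
      (algebraMap D (FractionRing D) σ / algebraMap D (FractionRing D) π) N Q ∈ IntK D A := by
  set K := FractionRing D with hK
  set n := Module.finrank (FractionRing D) (BB D A) with hn
  set f := keyPoly K (algebraMap D K σ / algebraMap D K π) N Q with hf
  obtain ⟨d, hdmem, hd⟩ := IsLocalization.integerNormalization_spec (nonZeroDivisors D) f
  set f₀ := IsLocalization.integerNormalization (nonZeroDivisors D) f with hf₀
  have hd0 : d ≠ 0 := nonZeroDivisors.ne_zero hdmem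
  have hdf : f₀.map (algebraMap D K) = C (algebraMap D K d) * f := by
    rw [hd, ← smul_eq_C_mul, algebraMap_smul]
  have hdw : ∀ a : A, d • aeval ((1 : K) ⊗ₜ[D] a : BB D A) f ∈ imageA D A := by
    intro a
    have h1 : d • aeval ((1 : K) ⊗ₜ[D] a : BB D A) f =
        aeval ((1 : K) ⊗ₜ[D] a : BB D A) f₀ := by
      rw [← aeval_map_algebraMap K _ f₀, hdf, map_mul, aeval_C,
        ← IsScalarTower.algebraMap_apply D K (BB D A), ← Algebra.smul_def]
    rw [h1]
    exact aeval_tmul_mem a f₀
  have hfin : Finite (D ⧸ Ideal.span {d ^ n}) := hD _ (pow_ne_zero _ hd0)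
  obtain ⟨Q', hQ'⟩ := exists_pig (d ^ n) n
  refine mem_of_isIntegrallyClosed (IntK D A) (d := C (algebraMap D K d)) hQ'.one_le ?_ ?_ ?_ ?_
  · rw [Ne, C_eq_zero]
    intro h0
    exact hd0 (IsFractionRing.injective D K (by rw [h0, map_zero]))
  · rw [mem_IntK]
    intro a
    rw [aeval_C, ← IsScalarTower.algebraMap_apply D K (BB D A)]
    exact (imageA D A).algebraMap_mem d
  · rw [mem_IntK]
    intro a
    rw [map_mul, aeval_C, ← IsScalarTower.algebraMap_apply D K (BB D A), ← Algebra.smul_def]
    exact hdw a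
  · rw [mem_IntK]
    intro a
    rw [map_sub, map_pow, map_pow]
    have hint : IsIntegral D (aeval ((1 : K) ⊗ₜ[D] a : BB D A) f) :=
      isIntegral_aeval_keyPoly h hN hN1 hQ (isIntegral_tmul a)
    obtain ⟨p, hp, hpn, hpw⟩ := exists_monic_of_isIntegral (K := K) hint
    obtain ⟨r, hr⟩ := pow_sub_pow_eq hQ'.dvd hp hpn hpw
    rw [hr]
    exact smul_aeval_mem (imageA D A) hp hpn hpw (hdw a) r le_rfl

/-- **Main theorem.**  If `D` is an integrally closed domain with finite residue rings and `A` is a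
torsion-free module-finite `D`-algebra with `Int_K(A)` integrally closed, then `A = A'`. -/
theorem mem_imageA_of_isIntegral (hD : ∀ d : D, d ≠ 0 → Finite (D ⧸ Ideal.span {d}))
    [IsIntegrallyClosed (IntK D A)] (b : BB D A) (hb : IsIntegral D b) : b ∈ imageA D A := by
  classical
  by_contra hbA
  have hDed : IsDedekindDomain D := isDedekindDomain_of_finite hD
  set K := FractionRing D with hK
  set n := Module.finrank (FractionRing D) (BB D A) with hn
  -- the ideals `{t : t • (t₀ • b) ∈ A}`
  let I : D → Ideal D := fun t₀ =>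
    { carrier := {t | t • (t₀ • b) ∈ imageA D A}
      add_mem' := by
        intro s t hs ht
        simp only [Set.mem_ofPred_eq] at hs ht ⊢
        rw [add_smul]
        exact add_mem hs ht
      zero_mem' := by
        simp only [Set.mem_ofPred_eq, zero_smul]
        exact zero_mem _
      smul_mem' := by
        intro c t ht
        simp only [Set.mem_ofPred_eq] at ht ⊢
        rw [smul_eq_mul, mul_smul]
        exact (imageA D A).smul_mem ht c }
  have hI : ∀ t₀ t, t ∈ I t₀ ↔ t • (t₀ • b) ∈ imageA D A := fun t₀ t => Iff.rfl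
  let S : Set (Ideal D) := {J | ∃ t₀ : D, t₀ • b ∉ imageA D A ∧ J = I t₀}
  have hS : S.Nonempty := ⟨I 1, 1, by rwa [one_smul], rfl⟩
  obtain ⟨P, ⟨t₀, ht₀, rfl⟩, hmaxP⟩ := set_has_maximal_iff_noetherian.mpr
    (inferInstance : IsNoetherian D D) S hS
  set x : BB D A := t₀ • b with hx
  have hxint : IsIntegral D x := IsIntegral.smul t₀ hb
  obtain ⟨c, hc0, a, hca⟩ := exists_smul_mem x
  have hPne : I t₀ ≠ ⊥ := by
    intro h0
    have h1 : c ∈ I t₀ := (hI t₀ c).mpr ⟨a, hca.symm⟩
    rw [h0] at h1
    exact hc0 h1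
  have hPprime : (I t₀).IsPrime := by
    refine ⟨?_, ?_⟩
    · intro htop
      have h1 : (1 : D) ∈ I t₀ := by rw [htop]; trivial
      rw [hI, one_smul] at h1
      exact ht₀ h1
    · intro s t hst
      by_contra hcon
      push Not at hcon
      obtain ⟨hs, ht⟩ := hcon
      have h1 : (t * t₀) • b ∉ imageA D A := by
        rw [mul_smul]
        exact fun h2 => ht ((hI t₀ t).mpr h2)
      have h2 : I t₀ ≤ I (t * t₀) := by
        intro u hu
        rw [hI] at hu ⊢
        have h3 : u • ((t * t₀) • b) = t • (u • (t₀ • b)) := by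
          rw [← mul_smul, ← mul_smul, ← mul_smul]
          congr 1
          ring
        rw [h3]
        exact (imageA D A).smul_mem hu t
      have h3 : s ∈ I (t * t₀) := by
        rw [hI]
        have h4 : s • ((t * t₀) • b) = (s * t) • (t₀ • b) := by
          rw [← mul_smul, ← mul_smul]
          congr 1
          ring
        rw [h4]
        exact hst
      exact hmaxP (I (t * t₀)) ⟨t * t₀, h1, rfl⟩ (lt_of_le_of_ne h2 fun h5 => hs (by rw [h5]; exact h3))
  obtain ⟨π, σ, hdata⟩ := exists_locData (I t₀) hPne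
  set N := (n).factorial with hNdef
  have hN1 : 1 ≤ N := Nat.factorial_pos _
  have hN : ∀ m, 1 ≤ m → m ≤ n → m ∣ N := fun m h1 h2 => Nat.dvd_factorial h1 h2
  have hfin : Finite (D ⧸ Ideal.span {π ^ (N + 1)}) := hD _ (pow_ne_zero _ hdata.ne)
  obtain ⟨Q, hQ⟩ := exists_pig (π ^ (N + 1)) n
  have hf := keyPoly_mem (A := A) hD hdata hN hN1 hQ
  have hπx : π • x ∈ imageA D A := (hI t₀ π).mp hdata.mem
  obtain ⟨a', ha'⟩ := (mem_imageA _).mp hπx
  have h1 := (mem_IntK _).mp hf a'
  rw [ha'] at h1
  obtain ⟨U, hU⟩ := keyPoly_comp (K := K) (σ := σ) hdata.ne N Q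
  have h2 : aeval (π • x) (keyPoly K (algebraMap D K σ / algebraMap D K π) N Q) =
      σ • x + π ^ Q • aeval x U := by
    have h3 := congrArg (aeval x) hU
    rw [aeval_comp, aeval_map_algebraMap, map_mul, aeval_C, aeval_X, map_add, map_mul, map_mul,
      aeval_C, aeval_C, aeval_X, ← IsScalarTower.algebraMap_apply D K (BB D A),
      ← Algebra.smul_def, ← Algebra.smul_def, ← Algebra.smul_def] at h3
    exact h3
  rw [h2] at h1
  obtain ⟨p, hp, hpn, hpx⟩ := exists_monic_of_isIntegral (K := K) hxint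
  have h3 : π ^ Q • aeval x U ∈ imageA D A :=
    smul_aeval_mem (imageA D A) hp hpn hpx hπx U hQ.le
  have h4 : σ • x ∈ imageA D A := by
    have h5 := sub_mem h1 h3
    rwa [add_sub_cancel_right] at h5
  exact hdata.notMem ((hI t₀ σ).mpr h4)

/-- The equality `A = A'` as an equality of subsets of `B`. -/
theorem isIntegral_iff_mem_imageA (hD : ∀ d : D, d ≠ 0 → Finite (D ⧸ Ideal.span {d}))
    [IsIntegrallyClosed (IntK D A)] (b : BB D A) : IsIntegral D b ↔ b ∈ imageA D A := by
  refine ⟨mem_imageA_of_isIntegral hD b, fun h => ?_⟩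
  obtain ⟨a, rfl⟩ := (mem_imageA b).mp h
  exact isIntegral_tmul a

end Main

end Pool.Agent.H61.IntVal
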