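import Pool.Agent.H61.IntVal.Key

set_option autoImplicit false

/-!
# The value of the key polynomial at an integral element of a finite-dimensional algebra
-/

namespace Pool.Agent.H61.IntVal

open Polynomial

set_option linter.unusedSectionVars false

variable {D K : Type*} [CommRing D] [IsDomain D] [IsIntegrallyClosed D] [Field K] [Algebra D K]
  [IsFractionRing D K]

/-- Integral elements of a finite-dimensional algebra are annihilated by monic polynomials of
degree at most the dimension. -/
theorem exists_monic_of_isIntegral {B : Type*} [Ring B] [Algebra D B] [Algebra K B]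
    [IsScalarTower D K B] [FiniteDimensional K B] {w : B} (hw : IsIntegral D w) :
    ∃ p : D[X], p.Monic ∧ p.natDegree ≤ Module.finrank K B ∧ aeval w p = 0 := by
  obtain ⟨p, hp, hpw⟩ := hw
  have hint : IsIntegral K w := Algebra.IsIntegral.isIntegral w
  have h1 : minpoly K w ∣ p.map (algebraMap D K) := by
    refine minpoly.dvd K w ?_
    rw [aeval_map_algebraMap]
    exact hpw
  obtain ⟨q, hq⟩ := IsIntegrallyClosed.eq_map_mul_C_of_dvd K hp h1
  rw [(minpoly.monic hint).leadingCoeff, C_1, mul_one] at hq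
  have hinj : Function.Injective (algebraMap D K) := IsFractionRing.injective D K
  refine ⟨q, ?_, ?_, ?_⟩
  · refine monic_of_injective hinj ?_
    rw [hq]
    exact minpoly.monic hint
  · rw [← natDegree_map_eq_of_injective hinj, hq]
    exact minpoly.natDegree_le w
  · rw [← aeval_map_algebraMap K, hq, minpoly.aeval]

/-- The key polynomial. -/
noncomputable def keyPoly (K : Type*) [Field K] (κ : K) (N Q : ℕ) : K[X] := FF (C κ) X N Q

theorem aeval_keyPoly {L : Type*} [Field L] [Algebra K L] (κ : K) (N Q : ℕ) (x : L) :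
    aeval x (keyPoly K κ N Q) = FF (algebraMap K L κ) x N Q := by
  unfold keyPoly
  have h := map_FF (aeval x : K[X] →ₐ[K] L).toRingHom (C κ) X N Q
  simp only [AlgHom.toRingHom_eq_coe, RingHom.coe_coe, aeval_C, aeval_X] at h
  exact h

/-- A polynomial `m` is good for `f` if it divides `h ∘ f` for some monic `h ∈ D[X]`. -/
def Good (D : Type*) {K : Type*} [CommRing D] [Field K] [Algebra D K] (f m : K[X]) : Prop :=
  ∃ h : D[X], h.Monic ∧ m ∣ (h.map (algebraMap D K)).comp f

theorem Good.mul {D K : Type*} [CommRing D] [Field K] [Algebra D K] {f m₁ m₂ : K[X]}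
    (h₁ : Good D f m₁) (h₂ : Good D f m₂) : Good D f (m₁ * m₂) := by
  obtain ⟨g₁, hg₁, hd₁⟩ := h₁
  obtain ⟨g₂, hg₂, hd₂⟩ := h₂
  refine ⟨g₁ * g₂, hg₁.mul hg₂, ?_⟩
  rw [Polynomial.map_mul, mul_comp]
  exact mul_dvd_mul hd₁ hd₂

theorem good_irreducible {P : Ideal D} {π σ : D} (h : LocData P π σ)
    {n N Q : ℕ} (hN : ∀ m, 1 ≤ m → m ≤ n → m ∣ N) (hN1 : 1 ≤ N) (hQ : Pig (π ^ (N + 1)) n Q)
    {q : K[X]} (hq : Irreducible q) (hqn : q.natDegree ≤ n) {p : D[X]} (hp : p.Monic)
    (hqp : q ∣ p.map (algebraMap D K)) :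
    Good D (keyPoly K (algebraMap D K σ / algebraMap D K π) N Q) q := by
  have : Fact (Irreducible q) := ⟨hq⟩
  set L := AdjoinRoot q with hL
  set x : L := AdjoinRoot.root q with hx
  have hfd : FiniteDimensional K L := (AdjoinRoot.powerBasis hq.ne_zero).finite
  have hrank : Module.finrank K L = q.natDegree := by
    rw [(AdjoinRoot.powerBasis hq.ne_zero).finrank, AdjoinRoot.powerBasis_dim]
  have hinj : Function.Injective (algebraMap D L) := by
    rw [IsScalarTower.algebraMap_eq D K L]
    exact (algebraMap K L).injective.comp (IsFractionRing.injective D K)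
  have hxint : IsIntegral D x := by
    refine ⟨p, hp, ?_⟩
    have h1 : aeval x (p.map (algebraMap D K)) = 0 := by
      rw [hx, AdjoinRoot.aeval_eq, AdjoinRoot.mk_eq_zero]
      exact hqp
    rw [aeval_map_algebraMap] at h1
    exact h1
  have hdeg : ∀ w : L, IsIntegral D w →
      ∃ p : D[X], p.Monic ∧ p.natDegree ≤ n ∧ aeval w p = 0 := by
    intro w hw
    obtain ⟨p, h1, h2, h3⟩ := exists_monic_of_isIntegral (K := K) hw
    exact ⟨p, h1, by rw [hrank] at h2; omega, h3⟩
  have hint := isIntegral_FF hinj h hN hN1 hQ hdeg x hxint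
  have hκ : algebraMap D L σ / algebraMap D L π =
      algebraMap K L (algebraMap D K σ / algebraMap D K π) := by
    rw [map_div₀, ← IsScalarTower.algebraMap_apply, ← IsScalarTower.algebraMap_apply]
  rw [hκ, ← aeval_keyPoly] at hint
  obtain ⟨g, hg, hgx⟩ := hint
  refine ⟨g, hg, ?_⟩
  rw [← AdjoinRoot.mk_eq_zero, ← AdjoinRoot.aeval_eq, aeval_comp, aeval_map_algebraMap]
  exact hgx

theorem good_of_dvd {P : Ideal D} {π σ : D} (h : LocData P π σ)
    {n N Q : ℕ} (hN : ∀ m, 1 ≤ m → m ≤ n → m ∣ N) (hN1 : 1 ≤ N) (hQ : Pig (π ^ (N + 1)) n Q)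
    {p : D[X]} (hp : p.Monic) (m : K[X]) :
    m ≠ 0 → m.natDegree ≤ n → m ∣ p.map (algebraMap D K) →
    Good D (keyPoly K (algebraMap D K σ / algebraMap D K π) N Q) m := by
  induction m using UniqueFactorizationMonoid.induction_on_prime with
  | h₁ => intro h0; exact absurd rfl h0
  | h₂ x hx =>
    intro _ _ _
    refine ⟨1, monic_one, ?_⟩
    exact hx.dvd
  | h₃ a q ha hq ih =>
    intro _ hn hd
    have hdeg : (q * a).natDegree = q.natDegree + a.natDegree := natDegree_mul hq.ne_zero ha
    refine Good.mul ?_ ?_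
    · exact good_irreducible h hN hN1 hQ hq.irreducible (by omega) hp ((dvd_mul_right q a).trans hd)
    · exact ih ha (by omega) ((dvd_mul_left a q).trans hd)

/-- The value of the key polynomial at an integral element is integral. -/
theorem isIntegral_aeval_keyPoly {B : Type*} [Ring B] [Algebra D B] [Algebra K B]
    [IsScalarTower D K B] [FiniteDimensional K B] {P : Ideal D} {π σ : D} (h : LocData P π σ)
    {N Q : ℕ} (hN : ∀ m, 1 ≤ m → m ≤ Module.finrank K B → m ∣ N) (hN1 : 1 ≤ N)
    (hQ : Pig (π ^ (N + 1)) (Module.finrank K B) Q) {b : B} (hb : IsIntegral D b) :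
    IsIntegral D (aeval b (keyPoly K (algebraMap D K σ / algebraMap D K π) N Q)) := by
  obtain ⟨p, hp, hpn, hpb⟩ := exists_monic_of_isIntegral (K := K) hb
  obtain ⟨g, hg, hd⟩ := good_of_dvd (K := K) h hN hN1 hQ hp (p.map (algebraMap D K))
    (hp.map _).ne_zero (by rw [hp.natDegree_map]; exact hpn) dvd_rfl
  refine ⟨g, hg, ?_⟩
  have h1 : aeval b ((g.map (algebraMap D K)).comp
      (keyPoly K (algebraMap D K σ / algebraMap D K π) N Q)) = 0 := by
    obtain ⟨r, hr⟩ := hd
    rw [hr, map_mul, aeval_map_algebraMap, hpb, zero_mul]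
  rw [aeval_comp, aeval_map_algebraMap] at h1
  exact h1

/-- The shape of the key polynomial at `π X`. -/
theorem gam_pi_X {π σ : D} (hπ : π ≠ 0) (N Q : ℕ) (k : ℕ) (hk : k ≤ N) :
    ∃ H : D[X], gam (C (algebraMap D K σ / algebraMap D K π)) (C (algebraMap D K π) * X) N Q k =
      (C (π ^ (N - k)) * H).map (algebraMap D K) := by
  have hπK : algebraMap D K π ≠ 0 := fun h0 =>
    hπ (IsFractionRing.injective D K (by rw [h0, map_zero]))
  induction k with
  | zero =>
    refine ⟨X ^ N, ?_⟩
    rw [gam_zero, Nat.sub_zero, mul_pow, Polynomial.map_mul, Polynomial.map_pow, map_X, map_C,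
      map_pow, C_pow]
  | succ k ih =>
    obtain ⟨H, hH⟩ := ih (by omega)
    refine ⟨C σ * H * (1 - (C (π ^ (N - k)) * H) ^ Q), ?_⟩
    rw [gam_succ, hH]
    have hNk : N - k = (N - (k + 1)) + 1 := by omega
    have h1 : C (algebraMap D K σ / algebraMap D K π) *
        (C (π ^ (N - k)) * H).map (algebraMap D K) =
        (C (π ^ (N - (k + 1))) * (C σ * H)).map (algebraMap D K) := by
      rw [Polynomial.map_mul, map_C, Polynomial.map_mul, map_C, Polynomial.map_mul, map_C,
        ← mul_assoc, ← mul_assoc, ← C_mul, ← C_mul]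
      congr 2
      rw [hNk, pow_succ, map_mul]
      field_simp
    rw [h1]
    simp only [Polynomial.map_mul, Polynomial.map_sub, Polynomial.map_one, Polynomial.map_pow]
    ring

theorem keyPoly_comp {π σ : D} (hπ : π ≠ 0) (N Q : ℕ) :
    ∃ U : D[X], (keyPoly K (algebraMap D K σ / algebraMap D K π) N Q).comp
      (C (algebraMap D K π) * X) = (C σ * X + C (π ^ Q) * U).map (algebraMap D K) := by
  classical
  have hπK : algebraMap D K π ≠ 0 := fun h0 =>
    hπ (IsFractionRing.injective D K (by rw [h0, map_zero]))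
  have h0 : (keyPoly K (algebraMap D K σ / algebraMap D K π) N Q).comp
      (C (algebraMap D K π) * X) =
      FF (C (algebraMap D K σ / algebraMap D K π)) (C (algebraMap D K π) * X) N Q := by
    unfold keyPoly
    have h := map_FF (compRingHom (C (algebraMap D K π) * X) : K[X] →+* K[X])
      (C (algebraMap D K σ / algebraMap D K π)) X N Q
    simp only [coe_compRingHom_apply, C_comp, X_comp] at h
    exact h
  have hprod : ∀ s : Finset ℕ, (∀ i ∈ s, i < N) → ∃ W : D[X],
      ∏ k ∈ s, (1 - (gam (C (algebraMap D K σ / algebraMap D K π))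
        (C (algebraMap D K π) * X) N Q k) ^ Q) = (1 + C (π ^ Q) * W).map (algebraMap D K) := by
    intro s
    induction s using Finset.induction_on with
    | empty =>
      intro _
      exact ⟨0, by simp⟩
    | insert a s ha ih =>
      intro hs
      obtain ⟨W, hW⟩ := ih fun i hi => hs i (Finset.mem_insert_of_mem hi)
      have haN : a < N := hs a (Finset.mem_insert_self _ _)
      obtain ⟨H, hH⟩ := gam_pi_X (K := K) (σ := σ) hπ N Q a haN.le
      obtain ⟨l, hl⟩ : ∃ l, N - a = l + 1 := ⟨N - a - 1, by omega⟩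
      refine ⟨-(C (π ^ l) * H) ^ Q + W - C (π ^ Q) * (C (π ^ l) * H) ^ Q * W, ?_⟩
      rw [Finset.prod_insert ha, hW, hH, hl]
      have h1 : C (π ^ (l + 1)) * H = C π * (C (π ^ l) * H) := by
        rw [pow_succ, C_mul]; ring
      rw [h1, ← Polynomial.map_pow, ← Polynomial.map_one (algebraMap D K), ← Polynomial.map_sub,
        ← Polynomial.map_mul]
      congr 1
      simp only [mul_pow, C_pow]
      ring
  obtain ⟨W, hW⟩ := hprod (Finset.range N) fun i hi => Finset.mem_range.mp hi
  refine ⟨C σ * X * W, ?_⟩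
  rw [h0]
  unfold FF
  rw [hW]
  have h1 : C (algebraMap D K σ / algebraMap D K π) * (C (algebraMap D K π) * X) =
      (C σ * X : D[X]).map (algebraMap D K) := by
    rw [Polynomial.map_mul, map_C, map_X, ← mul_assoc, ← C_mul, div_mul_cancel₀ _ hπK]
  rw [h1, ← Polynomial.map_mul]
  congr 1
  ring

end Pool.Agent.H61.IntVal
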