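import Pool.Agent.H61.IntVal.Val

set_option autoImplicit false

/-!
# Integrality of `κ x ∏ (1 - γ_k^Q)`
-/

namespace Pool.Agent.H61.IntVal

open Polynomial

/-- Local data at a maximal ideal `P`: a local uniformizer `π` and a local denominator `σ`. -/
structure LocData {D : Type*} [CommRing D] (P : Ideal D) (π σ : D) : Prop where
  max : P.IsMaximal
  mem : π ∈ P
  ne : π ≠ 0
  notMem : σ ∉ P
  mul : ∀ t ∈ P, ∃ d, σ * t = π * d
  fac : ∀ a : D, a ≠ 0 → ∃ (j : ℕ) (s t : D), s ∉ P ∧ t ∉ P ∧ s * a = t * π ^ j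

/-- The pigeonhole property modulo `c`. -/
structure Pig {D : Type*} [CommRing D] (c : D) (n Q : ℕ) : Prop where
  le : n ≤ Q
  one_le : 1 ≤ Q
  dvd : ∀ p : D[X], p.Monic → p.natDegree ≤ n →
    ∃ s r : D[X], (X ^ (2 * Q) - X ^ Q : D[X]) = p * s + C c * r

theorem exists_pig {D : Type*} [CommRing D] (c : D) [Finite (D ⧸ Ideal.span {c})] (n : ℕ) :
    ∃ Q, Pig c n Q := by
  obtain ⟨Q, h1, h2, h3⟩ := pigeon c n
  exact ⟨Q, h1, h2, h3⟩

theorem exists_locData {D : Type*} [CommRing D] [IsDedekindDomain D] (P : Ideal D)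
    [hPp : P.IsPrime] (hP : P ≠ ⊥) : ∃ π σ : D, LocData P π σ := by
  obtain ⟨π, σ, h1, h2, h3, h4, h5⟩ := exists_data P hP
  exact ⟨π, σ, hPp.isMaximal hP, h1, h2, h3, h4, h5⟩

theorem mem_valuationSubring_of_isIntegral {D L : Type*} [CommRing D] [Field L] [Algebra D L]
    {V : ValuationSubring L} (hV : ∀ d : D, algebraMap D L d ∈ V) {x : L} (hx : IsIntegral D x) :
    x ∈ V := by
  obtain ⟨p, hp, hpx⟩ := hx
  let φ : D →+* V.toSubring := (algebraMap D L).codRestrict V.toSubring hV
  have h1 : IsIntegral V x := by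
    refine ⟨p.map (φ : D →+* V), hp.map _, ?_⟩
    rw [eval₂_map]
    exact hpx
  obtain ⟨y, rfl⟩ := IsIntegrallyClosed.isIntegral_iff.mp h1
  exact y.2

theorem isIntegral_FF {D L : Type*} [CommRing D] [Field L] [Algebra D L]
    (hinj : Function.Injective (algebraMap D L)) {P : Ideal D} {π σ : D} (h : LocData P π σ)
    {n N Q : ℕ} (hN : ∀ m, 1 ≤ m → m ≤ n → m ∣ N) (hN1 : 1 ≤ N) (hQ : Pig (π ^ (N + 1)) n Q)
    (hdeg : ∀ w : L, IsIntegral D w → ∃ p : D[X], p.Monic ∧ p.natDegree ≤ n ∧ aeval w p = 0)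
    (x : L) (hx : IsIntegral D x) :
    IsIntegral D (FF (algebraMap D L σ / algebraMap D L π) x N Q) := by
  set κ : L := algebraMap D L σ / algebraMap D L π with hκdef
  have hπL : algebraMap D L π ≠ 0 := fun h0 => h.ne (hinj (by rw [h0, map_zero]))
  by_cases hx0 : x = 0
  · have : FF κ x N Q = 0 := by
      unfold FF; rw [hx0, mul_zero, zero_mul]
    rw [this]
    exact isIntegral_zero
  -- the facts at a valuation ring with `κ ∉ V`
  have hB : ∀ V : ValuationSubring L, (∀ d : D, algebraMap D L d ∈ V) → κ ∉ V →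
      ∃ j : ℕ, V.valuation (algebraMap D L π) ≠ 0 ∧ V.valuation (algebraMap D L π) < 1 ∧
        V.valuation κ * V.valuation (algebraMap D L π) = 1 ∧
        V.valuation x ^ N = V.valuation (algebraMap D L π) ^ j := by
    intro V hV hκV
    set v := V.valuation with hv
    have hD : ∀ d : D, v (algebraMap D L d) ≤ 1 := fun d =>
      (V.valuation_le_one_iff _).mpr (hV d)
    have hκ1 : 1 < v κ := by
      by_contra hcon
      push Not at hcon
      exact hκV ((V.valuation_le_one_iff _).mp hcon)
    have hp0 : v (algebraMap D L π) ≠ 0 := (Valuation.ne_zero_iff v).mpr hπL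
    have hmul : v κ * v (algebraMap D L π) = v (algebraMap D L σ) := by
      rw [← map_mul, hκdef, div_mul_cancel₀ _ hπL]
    have hlt : v (algebraMap D L π) < v (algebraMap D L σ) := by
      rw [← hmul]
      exact lt_mul_left (zero_lt_iff.mpr hp0) hκ1
    have hPv : ∀ t ∈ P, v (algebraMap D L t) < 1 := by
      intro t ht
      obtain ⟨d, hd⟩ := h.mul t ht
      by_contra hcon
      push Not at hcon
      have h1 : v (algebraMap D L σ) * v (algebraMap D L t) =
          v (algebraMap D L π) * v (algebraMap D L d) := by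
        rw [← map_mul, ← map_mul, ← map_mul, ← map_mul, hd]
      have h2 : v (algebraMap D L σ) ≤ v (algebraMap D L σ) * v (algebraMap D L t) := by
        calc v (algebraMap D L σ) = v (algebraMap D L σ) * 1 := (mul_one _).symm
          _ ≤ _ := by gcongr
      have h3 : v (algebraMap D L π) * v (algebraMap D L d) ≤ v (algebraMap D L π) := by
        calc v (algebraMap D L π) * v (algebraMap D L d) ≤ v (algebraMap D L π) * 1 := by
              gcongr; exact hD d
          _ = _ := mul_one _
      rw [← h1] at h3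
      exact absurd (h2.trans h3) (not_le.mpr hlt)
    have hunit : ∀ s ∉ P, v (algebraMap D L s) = 1 := fun s hs => val_unit v hD P h.max hPv hs
    have hp1 : v (algebraMap D L π) < 1 := hPv π h.mem
    have hval : ∀ a : D, a ≠ 0 → ∃ j : ℕ, v (algebraMap D L a) = v (algebraMap D L π) ^ j := by
      intro a ha
      obtain ⟨j, s, t, hs, ht, hst⟩ := h.fac a ha
      refine ⟨j, ?_⟩
      have h1 : v (algebraMap D L s) * v (algebraMap D L a) =
          v (algebraMap D L t) * v (algebraMap D L π) ^ j := by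
        rw [← map_mul, ← map_mul, ← map_pow, ← map_pow, ← map_mul, ← map_mul, hst]
      rwa [hunit s hs, hunit t ht, one_mul, one_mul] at h1
    have hx1 : v x ≤ 1 := (V.valuation_le_one_iff _).mpr (mem_valuationSubring_of_isIntegral hV hx)
    obtain ⟨p, hp, hpn, hpx⟩ := hdeg x hx
    obtain ⟨j, hj⟩ := exists_pow_factorial_eq v hval hp0 hp1 hx0 hx1 hN hp hpn hpx
    exact ⟨j, hp0, hp1, by rw [hmul, hunit σ h.notMem], hj⟩
  -- the pigeonhole estimate
  have hpig : ∀ V : ValuationSubring L, (∀ d : D, algebraMap D L d ∈ V) → ∀ y : L,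
      IsIntegral D y → V.valuation y = 1 →
      V.valuation (1 - y ^ Q) ≤ V.valuation (algebraMap D L π) ^ (N + 1) := by
    intro V hV y hy hy1
    set v := V.valuation with hv
    obtain ⟨p, hp, hpn, hpy⟩ := hdeg y hy
    obtain ⟨r, hr⟩ := pow_sub_pow_eq hQ.dvd hp hpn hpy
    have h1 : v (y ^ (2 * Q) - y ^ Q) = v (1 - y ^ Q) := by
      have h2 : y ^ (2 * Q) - y ^ Q = - (y ^ Q * (1 - y ^ Q)) := by ring
      rw [h2, Valuation.map_neg, map_mul, map_pow, hy1, one_pow, one_mul]
    rw [← h1, hr, Algebra.smul_def, map_mul, map_pow, map_pow]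
    have h3 : v (aeval y r) ≤ 1 := by
      refine (V.valuation_le_one_iff _).mpr ?_
      refine mem_valuationSubring_of_isIntegral hV (D := D) ?_
      exact IsIntegral.of_mem_of_fg (Algebra.adjoin D {y}) hy.fg_adjoin_singleton _
        (aeval_mem_adjoin_singleton D y)
    calc v (algebraMap D L π) ^ (N + 1) * v (aeval y r)
        ≤ v (algebraMap D L π) ^ (N + 1) * 1 := by gcongr
      _ = _ := mul_one _
  have hgam : ∀ k, k ≤ N → IsIntegral D (gam κ x N Q k) := by
    intro k
    induction k using Nat.strong_induction_on with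
    | _ k ih =>
      intro hkN
      rcases Nat.eq_zero_or_pos k with rfl | hk
      · rw [gam_zero]; exact hx.pow N
      · obtain ⟨k, rfl⟩ : ∃ l, k = l + 1 := ⟨k - 1, by omega⟩
        refine isIntegral_of_forall_valuationSubring _ fun V hV => ?_
        by_cases hκV : κ ∈ V
        · rw [gam_succ]
          have h1 : gam κ x N Q k ∈ V :=
            mem_valuationSubring_of_isIntegral hV (ih k (by omega) (by omega))
          exact V.mul_mem _ _ (V.mul_mem _ _ hκV h1) (sub_mem V.one_mem (pow_mem h1 Q))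
        · obtain ⟨j, hp0, hp1, hκp, hj⟩ := hB V hV hκV
          refine (V.valuation_le_one_iff _).mp ?_
          refine caseB_le_one V.valuation hp0 hp1 hκp hQ.one_le hj hkN ?_
          intro i hi hi1
          exact hpig V hV _ (ih i hi (by omega)) hi1
  refine isIntegral_of_forall_valuationSubring _ fun V hV => ?_
  by_cases hκV : κ ∈ V
  · unfold FF
    refine V.mul_mem _ _ (V.mul_mem _ _ hκV (mem_valuationSubring_of_isIntegral hV hx)) ?_
    refine prod_mem fun k hk => ?_
    have h1 : gam κ x N Q k ∈ V :=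
      mem_valuationSubring_of_isIntegral hV (hgam k (Finset.mem_range.mp hk).le)
    exact sub_mem V.one_mem (pow_mem h1 Q)
  · obtain ⟨j, hp0, hp1, hκp, hj⟩ := hB V hV hκV
    refine (V.valuation_le_one_iff _).mp ?_
    refine caseB_FF V.valuation hp0 hp1 hκp hN1 hQ.one_le hj
      ((V.valuation_le_one_iff _).mpr (mem_valuationSubring_of_isIntegral hV hx)) ?_
    intro i hi hi1
    exact hpig V hV _ (hgam i hi.le) hi1

end Pool.Agent.H61.IntVal
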