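import Mathlib

set_option autoImplicit false

/-!
# A pigeonhole statement for powers of integral elements
-/

namespace Pool.Agent.H61.IntVal

open Polynomial

/-- Over a finite ring, a common exponent `Q` with `X^(2Q) = X^Q` modulo every monic polynomial of
bounded degree. -/
theorem pigeon_finite {R : Type*} [CommRing R] [Finite R] (n : ℕ) :
    ∃ Q : ℕ, n ≤ Q ∧ 1 ≤ Q ∧ ∀ p : R[X], p.Monic → p.natDegree ≤ n →
      p ∣ (X ^ (2 * Q) - X ^ Q : R[X]) := by
  classical
  rcases subsingleton_or_nontrivial R with hR | hR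
  · refine ⟨n + 1, Nat.le_succ _, Nat.succ_pos _, fun p _ _ => ?_⟩
    rw [Subsingleton.elim (X ^ (2 * (n + 1)) - X ^ (n + 1) : R[X]) 0]
    exact dvd_zero _
  have : Fintype R := Fintype.ofFinite R
  set M : ℕ := Fintype.card (Fin n → R) with hM
  refine ⟨(M + n + 1).factorial, ?_, Nat.factorial_pos _, ?_⟩
  · exact le_trans (by omega) (Nat.self_le_factorial _)
  intro p hp hpn
  -- the coefficients of the remainders of the powers of `X`
  let φ : Fin (M + 1) → (Fin n → R) := fun i j => ((X ^ (i : ℕ) : R[X]) %ₘ p).coeff j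
  obtain ⟨i, j, hij, hφ⟩ := Fintype.exists_ne_map_eq_of_card_lt φ (by simp [hM])
  wlog hlt : (i : ℕ) < j generalizing i j
  · refine this j i hij.symm hφ.symm ?_
    have : (i : ℕ) ≠ j := fun h => hij (Fin.ext h)
    omega
  have hrem : (X ^ (i : ℕ) : R[X]) %ₘ p = (X ^ (j : ℕ) : R[X]) %ₘ p := by
    ext l
    by_cases hl : l < n
    · exact congrFun hφ ⟨l, hl⟩
    · have hdeg : ∀ q : R[X], (q %ₘ p).coeff l = 0 := by
        intro q
        apply coeff_eq_zero_of_degree_lt
        refine lt_of_lt_of_le (degree_modByMonic_lt q hp) ?_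
        rw [degree_eq_natDegree hp.ne_zero]
        exact_mod_cast hpn.trans (not_lt.mp hl)
      rw [hdeg, hdeg]
  have hdvd : p ∣ (X ^ (j : ℕ) - X ^ (i : ℕ) : R[X]) := by
    rw [← modByMonic_eq_zero_iff_dvd hp, sub_modByMonic, hrem, sub_self]
  have hjM : (j : ℕ) ≤ M := Nat.lt_succ_iff.mp j.2
  set Q : ℕ := (M + n + 1).factorial with hQ
  have hQge : (i : ℕ) ≤ Q := le_trans (by omega) (Nat.self_le_factorial _)
  have hper : (j : ℕ) - i ∣ Q := Nat.dvd_factorial (by omega) (by omega)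
  obtain ⟨t, ht⟩ := hper
  have h1 : (X ^ (j : ℕ) - X ^ (i : ℕ) : R[X]) = X ^ (i : ℕ) * (X ^ ((j : ℕ) - i) - 1) := by
    rw [mul_sub, mul_one, ← pow_add]
    congr 2
    omega
  have h2 : (X ^ (2 * Q) - X ^ Q : R[X]) = X ^ (Q - i) * (X ^ (i : ℕ) * (X ^ Q - 1)) := by
    rw [← mul_assoc, ← pow_add, mul_sub, mul_one, ← pow_add]
    congr 2 <;> omega
  have h3 : (X ^ ((j : ℕ) - i) - 1 : R[X]) ∣ X ^ Q - 1 := by
    rw [ht, pow_mul]
    simpa using sub_dvd_pow_sub_pow (X ^ ((j : ℕ) - i) : R[X]) 1 t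
  rw [h2]
  refine Dvd.dvd.mul_left ?_ _
  refine hdvd.trans ?_
  rw [h1]
  exact mul_dvd_mul_left _ h3

/-- Lifted form: modulo `c` every monic polynomial of degree at most `n` divides
`X^(2Q) - X^Q`. -/
theorem pigeon {D : Type*} [CommRing D] (c : D) [Finite (D ⧸ Ideal.span {c})] (n : ℕ) :
    ∃ Q : ℕ, n ≤ Q ∧ 1 ≤ Q ∧ ∀ p : D[X], p.Monic → p.natDegree ≤ n →
      ∃ s r : D[X], (X ^ (2 * Q) - X ^ Q : D[X]) = p * s + C c * r := by
  obtain ⟨Q, hn, h1, hQ⟩ := pigeon_finite (R := D ⧸ Ideal.span {c}) n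
  refine ⟨Q, hn, h1, fun p hp hpn => ?_⟩
  set π := Ideal.Quotient.mk (Ideal.span {c}) with hπ
  obtain ⟨s', hs'⟩ := hQ (p.map π) (hp.map π) ((natDegree_map_le).trans hpn)
  obtain ⟨s, rfl⟩ := map_surjective π Ideal.Quotient.mk_surjective s'
  have h0 : ((X ^ (2 * Q) - X ^ Q : D[X]) - p * s).map π = 0 := by
    rw [Polynomial.map_sub, Polynomial.map_sub, Polynomial.map_pow, Polynomial.map_pow, map_X, hs',
      Polynomial.map_mul, sub_self]
  have h2 : ∀ i, c ∣ ((X ^ (2 * Q) - X ^ Q : D[X]) - p * s).coeff i := by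
    intro i
    have := congrArg (fun q => q.coeff i) h0
    simp only [coeff_map, coeff_zero] at this
    rw [hπ, Ideal.Quotient.eq_zero_iff_mem, Ideal.mem_span_singleton] at this
    exact this
  obtain ⟨r, hr⟩ := (C_dvd_iff_dvd_coeff c _).mpr h2
  refine ⟨s, r, ?_⟩
  rw [← hr]
  ring

/-- The consequence for elements annihilated by a monic polynomial of degree at most `n`. -/
theorem pow_sub_pow_eq {D : Type*} [CommRing D] {c : D} {n Q : ℕ}
    (hQ : ∀ p : D[X], p.Monic → p.natDegree ≤ n →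
      ∃ s r : D[X], (X ^ (2 * Q) - X ^ Q : D[X]) = p * s + C c * r)
    {S : Type*} [Ring S] [Algebra D S] {w : S} {p : D[X]} (hp : p.Monic) (hpn : p.natDegree ≤ n)
    (hw : aeval w p = 0) : ∃ r : D[X], w ^ (2 * Q) - w ^ Q = c • aeval w r := by
  obtain ⟨s, r, h⟩ := hQ p hp hpn
  refine ⟨r, ?_⟩
  have := congrArg (aeval w) h
  rw [map_sub, map_pow, map_pow, aeval_X, map_add, map_mul, map_mul, hw, zero_mul, zero_add,
    aeval_C] at this
  rw [this, Algebra.smul_def]

/-- If `x` is annihilated by a monic polynomial of degree at most `n` and `c • x` lies in a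
subalgebra `A₀`, then `c ^ n • r(x)` lies in `A₀` for every polynomial `r`. -/
theorem smul_aeval_mem {D : Type*} [CommRing D] [Nontrivial D] {S : Type*} [Ring S] [Algebra D S]
    (A₀ : Subalgebra D S) {c : D} {x : S} {p : D[X]} {n : ℕ} (hp : p.Monic)
    (hpn : p.natDegree ≤ n) (hx : aeval x p = 0) (hc : c • x ∈ A₀) (r : D[X]) {m : ℕ} (hm : n ≤ m) :
    c ^ m • aeval x r ∈ A₀ := by
  have h1 : aeval x r = aeval x (r %ₘ p) := by
    conv_lhs => rw [← modByMonic_add_div r p]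
    rw [map_add, map_mul, hx, zero_mul, add_zero]
  rw [h1, aeval_eq_sum_range, Finset.smul_sum]
  refine Subalgebra.sum_mem _ fun i hi => ?_
  by_cases h0 : (r %ₘ p).coeff i = 0
  · rw [h0, zero_smul, smul_zero]
    exact zero_mem _
  have hin : i ≤ m := by
    have h2 : (i : WithBot ℕ) < p.degree :=
      lt_of_le_of_lt (le_degree_of_ne_zero h0) (degree_modByMonic_lt r hp)
    rw [degree_eq_natDegree hp.ne_zero] at h2
    have : i < p.natDegree := by exact_mod_cast h2
    omega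
  have h3 : c ^ m • (r %ₘ p).coeff i • x ^ i = (c ^ (m - i) * (r %ₘ p).coeff i) • (c • x) ^ i := by
    rw [_root_.smul_pow, smul_smul, smul_smul]
    congr 1
    have : c ^ m = c ^ (m - i) * c ^ i := by rw [← pow_add]; congr 1; omega
    rw [this]
    ring
  rw [h3]
  exact Subalgebra.smul_mem _ (pow_mem hc i) _

end Pool.Agent.H61.IntVal
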