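import Pool.Agent.H61.IntVal.Pigeon
import Pool.Agent.H61.IntVal.Data

set_option autoImplicit false

/-!
# The key integrality statement in a field extension
-/

namespace Pool.Agent.H61.IntVal

open Polynomial

/-- The iteration `γ ↦ κ γ (1 - γ^Q)` started at `x^N`. -/
def gam {R : Type*} [CommRing R] (κ x : R) (N Q : ℕ) : ℕ → R
  | 0 => x ^ N
  | (k + 1) => κ * gam κ x N Q k * (1 - (gam κ x N Q k) ^ Q)

/-- The element `κ x ∏_{k<N} (1 - γ_k^Q)`. -/
def FF {R : Type*} [CommRing R] (κ x : R) (N Q : ℕ) : R :=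
  κ * x * ∏ k ∈ Finset.range N, (1 - (gam κ x N Q k) ^ Q)

theorem gam_zero {R : Type*} [CommRing R] (κ x : R) (N Q : ℕ) : gam κ x N Q 0 = x ^ N := rfl

theorem gam_succ {R : Type*} [CommRing R] (κ x : R) (N Q k : ℕ) :
    gam κ x N Q (k + 1) = κ * gam κ x N Q k * (1 - (gam κ x N Q k) ^ Q) := rfl

theorem map_gam {R S : Type*} [CommRing R] [CommRing S] (φ : R →+* S) (κ x : R) (N Q k : ℕ) :
    φ (gam κ x N Q k) = gam (φ κ) (φ x) N Q k := by
  induction k with
  | zero => rw [gam_zero, gam_zero, map_pow]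
  | succ k ih => rw [gam_succ, gam_succ, map_mul, map_mul, map_sub, map_one, map_pow, ih]

theorem map_FF {R S : Type*} [CommRing R] [CommRing S] (φ : R →+* S) (κ x : R) (N Q : ℕ) :
    φ (FF κ x N Q) = FF (φ κ) (φ x) N Q := by
  unfold FF
  rw [map_mul, map_mul, map_prod]
  congr 1
  refine Finset.prod_congr rfl fun k _ => ?_
  rw [map_sub, map_one, map_pow, map_gam]

section Val

variable {D L Γ : Type*} [CommRing D] [Field L] [Algebra D L] [LinearOrderedCommGroupWithZero Γ]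

theorem val_unit (v : Valuation L Γ) (hD : ∀ d : D, v (algebraMap D L d) ≤ 1) (P : Ideal D)
    (hmax : P.IsMaximal) (hPv : ∀ t ∈ P, v (algebraMap D L t) < 1) {s : D} (hs : s ∉ P) :
    v (algebraMap D L s) = 1 := by
  obtain ⟨y, i, hi, hyi⟩ := hmax.exists_inv hs
  refine le_antisymm (hD s) ?_
  by_contra h
  push Not at h
  have h1 : v (algebraMap D L (y * s)) < 1 := by
    rw [map_mul, map_mul]
    exact mul_lt_one_of_nonneg_of_lt_one_right (hD y) zero_le h
  have h2 : v (algebraMap D L (y * s + i)) < 1 := by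
    rw [map_add]
    exact Valuation.map_add_lt v h1 (hPv i hi)
  rw [hyi, map_one, map_one] at h2
  exact lt_irrefl _ h2

theorem exists_pow_eq (v : Valuation L Γ) {p : Γ}
    (hval : ∀ a : D, a ≠ 0 → ∃ j : ℕ, v (algebraMap D L a) = p ^ j) (hp0 : p ≠ 0) (hp1 : p < 1)
    {x : L} (hx : x ≠ 0) (hx1 : v x ≤ 1) {n : ℕ} {q : D[X]} (hq : q.Monic)
    (hqn : q.natDegree ≤ n) (hqx : aeval x q = 0) :
    ∃ m e : ℕ, 1 ≤ m ∧ m ≤ n ∧ v x ^ m = p ^ e := by
  classical
  have hxv : v x ≠ 0 := (Valuation.ne_zero_iff v).mpr hx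
  have hnt : Nontrivial D := by
    by_contra h
    rw [not_nontrivial_iff_subsingleton] at h
    have h1 : algebraMap D L 1 = algebraMap D L 0 := congrArg _ (Subsingleton.elim _ _)
    rw [map_one, map_zero] at h1
    exact one_ne_zero h1
  set f : ℕ → L := fun i => algebraMap D L (q.coeff i) * x ^ i with hf
  have hsum : ∑ i ∈ q.support, f i = 0 := by
    rw [← hqx, aeval_def, eval₂_eq_sum, Polynomial.sum]
  have hne : q.support.Nonempty := by
    rw [support_nonempty]; exact hq.ne_zero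
  obtain ⟨j, hj, hjmax⟩ := Finset.exists_max_image q.support (fun i => v (f i)) hne
  have hfne : ∀ i ∈ q.support, v (f i) ≠ 0 := by
    intro i hi
    obtain ⟨a, ha⟩ := hval (q.coeff i) (mem_support_iff.mp hi)
    rw [hf]
    simp only [map_mul, map_pow]
    rw [ha]
    exact mul_ne_zero (pow_ne_zero _ hp0) (pow_ne_zero _ hxv)
  have hex : ∃ i ∈ q.support, i ≠ j ∧ v (f i) = v (f j) := by
    by_contra hcon
    push Not at hcon
    have h1 : v (∑ i ∈ q.support, f i) = v (f j) := by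
      refine Valuation.map_sum_eq_of_lt v hj ?_
      intro i hi
      rw [Finset.mem_sdiff, Finset.mem_singleton] at hi
      exact lt_of_le_of_ne (hjmax i hi.1) (hcon i hi.1 hi.2)
    rw [hsum, map_zero] at h1
    exact hfne j hj h1.symm
  obtain ⟨i, hi, hij, hvij⟩ := hex
  -- reduce to `i < j`
  have key : ∀ i j : ℕ, i ∈ q.support → j ∈ q.support → i < j → v (f i) = v (f j) →
      ∃ m e : ℕ, 1 ≤ m ∧ m ≤ n ∧ v x ^ m = p ^ e := by
    intro i j hi hj hlt hv
    obtain ⟨a, ha⟩ := hval (q.coeff i) (mem_support_iff.mp hi)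
    obtain ⟨b, hb⟩ := hval (q.coeff j) (mem_support_iff.mp hj)
    simp only [hf, map_mul, map_pow] at hv
    rw [ha, hb] at hv
    have hjn : j ≤ n := (le_natDegree_of_mem_supp j hj).trans hqn
    have h2 : p ^ a = p ^ b * v x ^ (j - i) := by
      have h3 : v x ^ j = v x ^ (j - i) * v x ^ i := by
        rw [← pow_add]; congr 1; omega
      rw [h3, ← mul_assoc] at hv
      exact mul_right_cancel₀ (pow_ne_zero _ hxv) hv
    have hba : b ≤ a := by
      by_contra hlt2
      push Not at hlt2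
      have h4 : p ^ b < p ^ a := pow_lt_pow_right_of_lt_one₀ (zero_lt_iff.mpr hp0) hp1 hlt2
      have h5 : p ^ b * v x ^ (j - i) ≤ p ^ b := by
        have : v x ^ (j - i) ≤ 1 := pow_le_one₀ zero_le hx1
        calc p ^ b * v x ^ (j - i) ≤ p ^ b * 1 := by gcongr
          _ = p ^ b := mul_one _
      rw [← h2] at h5
      exact absurd h5 (not_le.mpr h4)
    refine ⟨j - i, a - b, by omega, by omega, ?_⟩
    have h6 : p ^ a = p ^ b * p ^ (a - b) := by
      rw [← pow_add]; congr 1; omega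
    rw [h6] at h2
    exact (mul_left_cancel₀ (pow_ne_zero _ hp0) h2).symm
  rcases lt_or_gt_of_ne hij with h | h
  · exact key i j hi hj h hvij
  · exact key j i hj hi h hvij.symm

theorem exists_pow_factorial_eq (v : Valuation L Γ) {p : Γ}
    (hval : ∀ a : D, a ≠ 0 → ∃ j : ℕ, v (algebraMap D L a) = p ^ j) (hp0 : p ≠ 0) (hp1 : p < 1)
    {x : L} (hx : x ≠ 0) (hx1 : v x ≤ 1) {n N : ℕ} (hN : ∀ m, 1 ≤ m → m ≤ n → m ∣ N) {q : D[X]}
    (hq : q.Monic) (hqn : q.natDegree ≤ n) (hqx : aeval x q = 0) :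
    ∃ e : ℕ, v x ^ N = p ^ e := by
  obtain ⟨m, e, h1, h2, h3⟩ := exists_pow_eq v hval hp0 hp1 hx hx1 hq hqn hqx
  obtain ⟨m', rfl⟩ := hN m h1 h2
  exact ⟨e * m', by rw [pow_mul, h3, pow_mul]⟩

theorem le_one_of_mul_pow_le {p y : Γ} (hp0 : p ≠ 0) (hp1 : p < 1) {k l : ℕ} (hkl : k ≤ l)
    (h : y * p ^ k ≤ p ^ l) : y ≤ 1 := by
  have h1 : p ^ l ≤ p ^ k := pow_le_pow_of_le_one zero_le hp1.le hkl
  have h2 : y * p ^ k ≤ 1 * p ^ k := by rw [one_mul]; exact h.trans h1
  exact le_of_mul_le_mul_right h2 (zero_lt_iff.mpr (pow_ne_zero _ hp0))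

theorem one_sub_le_one (v : Valuation L Γ) {y : L} (hy : v y ≤ 1) (Q : ℕ) :
    v (1 - y ^ Q) ≤ 1 := by
  refine (Valuation.map_sub v _ _).trans ?_
  rw [map_one, map_pow]
  exact max_le le_rfl (pow_le_one₀ zero_le hy)

theorem caseB_step (v : Valuation L Γ) {κ x : L} {p : Γ} (hp0 : p ≠ 0) (hp1 : p < 1)
    (hκ : v κ * p = 1) {N Q j K : ℕ} (hQ1 : 1 ≤ Q) (hj : v x ^ N = p ^ j) (hKN : K ≤ N)
    (hpig : ∀ i < K, v (gam κ x N Q i) = 1 → v (1 - (gam κ x N Q i) ^ Q) ≤ p ^ (N + 1)) :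
    ∀ i ≤ K, (i ≤ j → v (gam κ x N Q i) * p ^ i = p ^ j) ∧
      (j < i → v (gam κ x N Q i) * p ^ i ≤ p ^ (N + 1 + j)) := by
  intro i
  induction i with
  | zero =>
    intro _
    refine ⟨fun _ => ?_, fun h => absurd h (Nat.not_lt_zero _)⟩
    rw [gam_zero, map_pow, pow_zero, mul_one, hj]
  | succ i ih =>
    intro hiK
    obtain ⟨h1, h2⟩ := ih (by omega)
    have hexp : v (gam κ x N Q (i + 1)) * p ^ (i + 1) =
        (v (gam κ x N Q i) * p ^ i) * v (1 - (gam κ x N Q i) ^ Q) := by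
      rw [gam_succ, map_mul, map_mul]
      calc v κ * v (gam κ x N Q i) * v (1 - gam κ x N Q i ^ Q) * p ^ (i + 1)
          = (v κ * p) * (v (gam κ x N Q i) * p ^ i) * v (1 - gam κ x N Q i ^ Q) := by
            rw [pow_succ]; ac_rfl
        _ = _ := by rw [hκ, one_mul]
    refine ⟨fun hij => ?_, fun hij => ?_⟩
    · have h3 := h1 (by omega)
      have h4 : v (gam κ x N Q i) < 1 := by
        by_contra hcon
        push Not at hcon
        have h5 : p ^ j < p ^ i := pow_lt_pow_right_of_lt_one₀ (zero_lt_iff.mpr hp0) hp1 (by omega)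
        have h6 : 1 * p ^ i ≤ v (gam κ x N Q i) * p ^ i := by gcongr
        rw [one_mul, h3] at h6
        exact absurd h6 (not_le.mpr h5)
      have h5 : v (1 - (gam κ x N Q i) ^ Q) = 1 := by
        have h6 : v ((gam κ x N Q i) ^ Q) < 1 := by
          rw [map_pow]
          exact pow_lt_one₀ zero_le h4 (by omega)
        exact Valuation.map_one_sub_of_lt v h6
      rw [hexp, h3, h5, mul_one]
    · rcases Nat.lt_or_ge j i with hji | hji
      · have h3 := h2 hji
        have h4 : v (gam κ x N Q i) ≤ 1 := le_one_of_mul_pow_le hp0 hp1 (by omega) h3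
        rw [hexp]
        calc v (gam κ x N Q i) * p ^ i * v (1 - gam κ x N Q i ^ Q)
            ≤ p ^ (N + 1 + j) * 1 := by
              gcongr
              exact one_sub_le_one v h4 Q
          _ = p ^ (N + 1 + j) := mul_one _
      · have hijeq : i = j := by omega
        subst hijeq
        have h3 := h1 le_rfl
        have h4 : v (gam κ x N Q i) = 1 := by
          have h5 : v (gam κ x N Q i) * p ^ i = 1 * p ^ i := by rw [h3, one_mul]
          exact mul_right_cancel₀ (pow_ne_zero _ hp0) h5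
        have h5 := hpig i (by omega) h4
        rw [hexp, h3]
        calc p ^ i * v (1 - gam κ x N Q i ^ Q) ≤ p ^ i * p ^ (N + 1) := by gcongr
          _ = p ^ (N + 1 + i) := by rw [← pow_add, add_comm]

theorem caseB_le_one (v : Valuation L Γ) {κ x : L} {p : Γ} (hp0 : p ≠ 0) (hp1 : p < 1)
    (hκ : v κ * p = 1) {N Q j K : ℕ} (hQ1 : 1 ≤ Q) (hj : v x ^ N = p ^ j) (hKN : K ≤ N)
    (hpig : ∀ i < K, v (gam κ x N Q i) = 1 → v (1 - (gam κ x N Q i) ^ Q) ≤ p ^ (N + 1)) :
    v (gam κ x N Q K) ≤ 1 := by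
  obtain ⟨h1, h2⟩ := caseB_step v hp0 hp1 hκ hQ1 hj hKN hpig K le_rfl
  rcases Nat.lt_or_ge j K with h | h
  · exact le_one_of_mul_pow_le hp0 hp1 (by omega) (h2 h)
  · exact le_one_of_mul_pow_le hp0 hp1 h (h1 h).le

theorem caseB_FF (v : Valuation L Γ) {κ x : L} {p : Γ} (hp0 : p ≠ 0) (hp1 : p < 1)
    (hκ : v κ * p = 1) {N Q j : ℕ} (hN1 : 1 ≤ N) (hQ1 : 1 ≤ Q) (hj : v x ^ N = p ^ j)
    (hx1 : v x ≤ 1)
    (hpig : ∀ i < N, v (gam κ x N Q i) = 1 → v (1 - (gam κ x N Q i) ^ Q) ≤ p ^ (N + 1)) :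
    v (FF κ x N Q) ≤ 1 := by
  classical
  have hle : ∀ i < N, v (1 - (gam κ x N Q i) ^ Q) ≤ 1 := by
    intro i hi
    refine one_sub_le_one v ?_ Q
    exact caseB_le_one v hp0 hp1 hκ hQ1 hj (by omega) fun l hl => hpig l (by omega)
  have hprod : ∀ s : Finset ℕ, (∀ i ∈ s, i < N) →
      v (∏ k ∈ s, (1 - (gam κ x N Q k) ^ Q)) ≤ 1 := by
    intro s hs
    rw [map_prod]
    exact Finset.prod_le_one' fun i hi => hle i (hs i hi)
  unfold FF
  rcases Nat.lt_or_ge j N with h | h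
  · have h1 := (caseB_step v hp0 hp1 hκ hQ1 hj (by omega : j ≤ N)
      (fun l hl => hpig l (by omega)) j le_rfl).1 le_rfl
    have h4 : v (gam κ x N Q j) = 1 := by
      have h5 : v (gam κ x N Q j) * p ^ j = 1 * p ^ j := by rw [h1, one_mul]
      exact mul_right_cancel₀ (pow_ne_zero _ hp0) h5
    have h5 := hpig j h h4
    have h6 : v (1 - gam κ x N Q j ^ Q) ≤ p := by
      refine h5.trans ?_
      calc p ^ (N + 1) ≤ p ^ 1 := pow_le_pow_of_le_one zero_le hp1.le (by omega)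
        _ = p := pow_one p
    rw [← Finset.mul_prod_erase _ _ (Finset.mem_range.mpr h), map_mul, map_mul, map_mul]
    have h7 := hprod ((Finset.range N).erase j) fun i hi =>
      Finset.mem_range.mp (Finset.mem_of_mem_erase hi)
    calc v κ * v x * (v (1 - gam κ x N Q j ^ Q) *
          v (∏ k ∈ (Finset.range N).erase j, (1 - gam κ x N Q k ^ Q)))
        ≤ v κ * 1 * (p * 1) := by gcongr
      _ = 1 := by rw [mul_one, mul_one, hκ]
  · have h1 : v x ≤ p := by
      by_contra hcon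
      push Not at hcon
      have h2 : p ^ N < v x ^ N := pow_lt_pow_left₀ hcon zero_le (by omega)
      have h3 : p ^ j ≤ p ^ N := pow_le_pow_of_le_one zero_le hp1.le h
      rw [hj] at h2
      exact absurd h3 (not_le.mpr h2)
    rw [map_mul, map_mul]
    have h7 := hprod (Finset.range N) fun i hi => Finset.mem_range.mp hi
    calc v κ * v x * v (∏ k ∈ Finset.range N, (1 - gam κ x N Q k ^ Q))
        ≤ v κ * p * 1 := by gcongr
      _ = 1 := by rw [mul_one, hκ]

end Val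

end Pool.Agent.H61.IntVal
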